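import Pool.Agent.W500.CS.Stm

/-!
# Comparison with a primitive
-/

set_option autoImplicit false

namespace Pool.Agent.W885.CQ.QC

open Set Filter Topology Pool.Agent.W500.CS

theorem cont {a b : ℝ} {v : ℝ → ℝ} (h : SC1 a b v) {t : ℝ} (ht : t ∈ Ioo a b) :
    ContinuousAt v t := by
  obtain ⟨ε, hε, C, hc⟩ := h t ht
  have h1 : ContinuousOn (fun y => v y + C * y ^ 2) (Ioo (t - ε) (t + ε)) :=
    hc.continuousOn isOpen_Ioo
  have h2 : ContinuousAt (fun y => v y + C * y ^ 2) t :=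
    h1.continuousAt (Ioo_mem_nhds (by linarith) (by linarith))
  have h3 : v = fun y => (v y + C * y ^ 2) - C * y ^ 2 := by
    funext y
    ring
  rw [h3]
  exact h2.sub (by fun_prop)

theorem down {f : ℝ → ℝ} {p q : ℝ} (hpq : p ≤ q) (hc : ContinuousOn f (Icc p q))
    (hd : ∀ t ∈ Ico p q, ∃ d, d ≤ 0 ∧ HasDerivWithinAt f d (Ici t) t) : f q ≤ f p := by
  choose! D hD using hd
  exact image_le_of_deriv_right_le_deriv_boundary hc (fun x hx => (hD x hx).2) le_rfl
    (B := fun _ => f p) (B' := fun _ => 0) continuousOn_const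
    (fun x _ => hasDerivWithinAt_const x _ _) (fun x hx => (hD x hx).1) ⟨hpq, le_rfl⟩

theorem up {f : ℝ → ℝ} {p q : ℝ} (hpq : p ≤ q) (hc : ContinuousOn f (Icc p q))
    (hd : ∀ t ∈ Ico p q, ∃ d, 0 ≤ d ∧ HasDerivWithinAt f d (Ici t) t) : f p ≤ f q := by
  have h := down (f := fun t => - f t) hpq hc.neg (fun t ht => by
    obtain ⟨d, h1, h2⟩ := hd t ht
    exact ⟨-d, by linarith, h2.neg⟩)
  linarith

theorem sep_le {r : ℕ} {a b : ℝ} {ψ : Fin r → ℝ → ℝ} (h : Sep a b ψ) {i j : Fin r} {s t : ℝ}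
    (hs : s ∈ Ioo a b) (ht : t ∈ Ioo a b) (hle : ψ i s ≤ ψ j s) : ψ i t ≤ ψ j t := by
  rcases h i j with h1 | h1 | h1
  · exact (h1 t ht).le
  · exact (h1 t ht).le
  · exact absurd (h1 s hs) (not_lt.2 hle)

theorem main : S_MONO → S_QC := by
  intro hM r a b v ψ η hv hψ hsep hd hη
  have hM' := hM r a b v ψ hv hψ hsep hd
  have hfc : ∀ i, ∀ t ∈ Ioo a b, ContinuousAt (fun t => v t - η i t) t := fun i t ht =>
    (cont hv ht).sub (hη i t ht).continuousAt
  have hfd : ∀ i k, ∀ t ∈ Ioo a b, HasDerivWithinAt v (ψ k t) (Ioi t) t →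
      HasDerivWithinAt (fun t => v t - η i t) (ψ k t - ψ i t) (Ici t) t := by
    intro i k t ht h
    exact (hasDerivWithinAt_Ioi_iff_Ici.1 h).sub (hη i t ht).hasDerivWithinAt
  -- nondecreasing to the right
  have hup : ∀ i k x y, a < x → x ≤ y → y < b → HasDerivWithinAt v (ψ k x) (Ioi x) x →
      ψ i x ≤ ψ k x → v x - η i x ≤ v y - η i y := by
    intro i k x y hx hxy hy hk hik
    have hmem : ∀ t ∈ Icc x y, t ∈ Ioo a b := fun t ht =>
      ⟨lt_of_lt_of_le hx ht.1, lt_of_le_of_lt ht.2 hy⟩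
    refine up (f := fun t => v t - η i t) hxy
      (fun t ht => (hfc i t (hmem t ht)).continuousWithinAt) ?_
    intro t ht
    have ht' := hmem t ⟨ht.1, ht.2.le⟩
    obtain ⟨l, hl⟩ := hd t ht'
    refine ⟨ψ l t - ψ i t, ?_, hfd i l t ht' hl⟩
    have h1 := hM' x t hx ht.1 ht'.2 k l hk hl
    have h2 := sep_le hsep (hmem x ⟨le_rfl, hxy⟩) ht' hik
    linarith
  -- nonincreasing to the left
  have hdown : ∀ i k x y, a < x → x ≤ y → y < b → HasDerivWithinAt v (ψ k y) (Ioi y) y →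
      ψ k y ≤ ψ i y → v y - η i y ≤ v x - η i x := by
    intro i k x y hx hxy hy hk hik
    have hmem : ∀ t ∈ Icc x y, t ∈ Ioo a b := fun t ht =>
      ⟨lt_of_lt_of_le hx ht.1, lt_of_le_of_lt ht.2 hy⟩
    refine down (f := fun t => v t - η i t) hxy
      (fun t ht => (hfc i t (hmem t ht)).continuousWithinAt) ?_
    intro t ht
    have ht' := hmem t ⟨ht.1, ht.2.le⟩
    have hy' := hmem y ⟨hxy, le_rfl⟩
    obtain ⟨l, hl⟩ := hd t ht'
    refine ⟨ψ l t - ψ i t, ?_, hfd i l t ht' hl⟩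
    have h1 := hM' t y ht'.1 ht.2.le hy l k hl hk
    have h2 := sep_le hsep hy' ht' (h1.trans hik)
    linarith
  constructor
  · intro i x y z hx hxy hyz hz
    have hy : y ∈ Ioo a b := ⟨lt_of_lt_of_le hx hxy, lt_of_le_of_lt hyz hz⟩
    obtain ⟨k, hk⟩ := hd y hy
    rcases le_total (ψ i y) (ψ k y) with h | h
    · exact le_max_of_le_right (hup i k y z hy.1 hyz hz hk h)
    · exact le_max_of_le_left (hdown i k x y hx hxy hy.2 hk h)
  · intro i x hx hder y hy
    rcases le_total x y with h | h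
    · exact hup i i x y hx.1 h hy.2 hder.hasDerivWithinAt le_rfl
    · exact hdown i i y x hy.1 h hx.2 hder.hasDerivWithinAt le_rfl

end Pool.Agent.W885.CQ.QC
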